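import Mathlib

namespace Pool.Agent.Work.MP_935c4d_an

open Set Filter Topology

/-- the real-line version of the Weierstrass-type series -/
noncomputable def V (lam : ℝ) (b : ℕ) (G : ℝ → ℝ) (x : ℝ) : ℝ :=
  ∑' k : ℕ, lam ^ k * G ((b : ℝ) ^ k * x)

/-- `1`-periodic functions whose difference with the tent function has Lipschitz constant `1/20` -/
structure Good (G : ℝ → ℝ) : Prop where
  per : ∀ x, G (x + 1) = G x
  lip : ∀ x y, |G x - G y| ≤ 21 / 20 * |x - y|
  osc : ∀ x y, |G x - G y| ≤ 21 / 40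
  up : ∀ x y, 0 ≤ x → x ≤ y → y ≤ 1 / 2 → 19 / 20 * (y - x) ≤ G y - G x
  down : ∀ x y, 0 ≤ x → x ≤ y → y ≤ 1 / 2 → 19 / 20 * (y - x) ≤ G (-y) - G (-x)

/-- reflection -/
def refl (G : ℝ → ℝ) : ℝ → ℝ := fun x => G (-x)

lemma Good.refl {G : ℝ → ℝ} (h : Good G) : Good (refl G) where
  per := by
    intro x
    have := h.per (-(x + 1))
    simp only [Pool.Agent.Work.MP_935c4d_an.refl]
    rw [← this]
    ring_nf
  lip := by
    intro x y
    have := h.lip (-x) (-y)
    simp only [Pool.Agent.Work.MP_935c4d_an.refl]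
    calc |G (-x) - G (-y)| ≤ 21 / 20 * |-x - -y| := this
      _ = 21 / 20 * |x - y| := by rw [show -x - -y = -(x - y) by ring, abs_neg]
  osc := fun x y => h.osc (-x) (-y)
  up := h.down
  down := by
    intro x y h0 h1 h2
    simpa [Pool.Agent.Work.MP_935c4d_an.refl] using h.up x y h0 h1 h2

lemma Good.continuous {G : ℝ → ℝ} (h : Good G) : Continuous G := by
  have : LipschitzWith (21/20) G := by
    refine LipschitzWith.of_dist_le_mul fun x y => ?_
    simpa [Real.dist_eq] using h.lip x y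
  exact this.continuous

lemma Good.add_int {G : ℝ → ℝ} (h : Good G) (x : ℝ) (n : ℤ) : G (x + n) = G x := by
  have hp : Function.Periodic G 1 := h.per
  simpa using hp.int_mul n x

lemma Good.bdd {G : ℝ → ℝ} (h : Good G) (x : ℝ) : |G x| ≤ |G 0| + 21 / 40 := by
  have h1 := h.osc x 0
  have h2 : |G x| ≤ |G x - G 0| + |G 0| := by
    have := abs_add_le (G x - G 0) (G 0)
    simpa using this
  linarith

section

variable {lam : ℝ} {b : ℕ} {G : ℝ → ℝ}

lemma summable_V (h : Good G) (h0 : 0 ≤ lam) (h1 : lam < 1) (x : ℝ) :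
    Summable (fun k : ℕ => lam ^ k * G ((b : ℝ) ^ k * x)) := by
  have hs : Summable (fun k : ℕ => lam ^ k * (|G 0| + 21 / 40)) :=
    (summable_geometric_of_lt_one h0 h1).mul_right _
  refine Summable.of_norm_bounded hs fun k => ?_
  rw [norm_mul, Real.norm_eq_abs, Real.norm_eq_abs, abs_of_nonneg (pow_nonneg h0 k)]
  exact mul_le_mul_of_nonneg_left (h.bdd _) (pow_nonneg h0 k)

lemma continuous_V (h : Good G) (h0 : 0 ≤ lam) (h1 : lam < 1) : Continuous (V lam b G) := by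
  have hs : Summable (fun k : ℕ => lam ^ k * (|G 0| + 21 / 40)) :=
    (summable_geometric_of_lt_one h0 h1).mul_right _
  unfold V
  refine continuous_tsum (fun k => ?_) hs fun k x => ?_
  · exact continuous_const.mul (h.continuous.comp (continuous_const.mul continuous_id))
  · rw [norm_mul, Real.norm_eq_abs, Real.norm_eq_abs, abs_of_nonneg (pow_nonneg h0 k)]
    exact mul_le_mul_of_nonneg_left (h.bdd _) (pow_nonneg h0 k)

/-- self-similarity -/
lemma V_split (h : Good G) (h0 : 0 ≤ lam) (h1 : lam < 1) (n : ℕ) (x : ℝ) :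
    V lam b G x = (∑ k ∈ Finset.range n, lam ^ k * G ((b : ℝ) ^ k * x)) +
      lam ^ n * V lam b G ((b : ℝ) ^ n * x) := by
  have hs := summable_V (b := b) h h0 h1 x
  unfold V
  rw [← hs.sum_add_tsum_nat_add n, ← tsum_mul_left]
  congr 1
  refine tsum_congr fun k => ?_
  rw [pow_add, pow_add]
  ring_nf

lemma V_add_int (h : Good G) (x : ℝ) (n : ℤ) : V lam b G (x + n) = V lam b G x := by
  unfold V
  refine tsum_congr fun k => ?_
  congr 1
  have : (b : ℝ) ^ k * (x + n) = (b : ℝ) ^ k * x + ((b ^ k * n : ℤ) : ℝ) := by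
    push_cast; ring
  rw [this, h.add_int]

lemma V_sub_le (h : Good G) (h0 : 0 ≤ lam) (h1 : lam < 1) (x y : ℝ) :
    |V lam b G x - V lam b G y| ≤ 21 / 40 / (1 - lam) := by
  have hx := summable_V (b := b) h h0 h1 x
  have hy := summable_V (b := b) h h0 h1 y
  unfold V
  rw [← hx.tsum_sub hy]
  have hs : Summable (fun k : ℕ => lam ^ k * (21 / 40 : ℝ)) :=
    (summable_geometric_of_lt_one h0 h1).mul_right _
  have hle : ∀ k : ℕ, ‖lam ^ k * G ((b : ℝ) ^ k * x) - lam ^ k * G ((b : ℝ) ^ k * y)‖ ≤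
      lam ^ k * (21 / 40 : ℝ) := by
    intro k
    rw [← mul_sub, norm_mul, Real.norm_eq_abs, Real.norm_eq_abs, abs_of_nonneg (pow_nonneg h0 k)]
    exact mul_le_mul_of_nonneg_left (h.osc _ _) (pow_nonneg h0 k)
  have := tsum_of_norm_bounded hs.hasSum hle
  rw [Real.norm_eq_abs] at this
  refine this.trans (le_of_eq ?_)
  rw [tsum_mul_right, tsum_geometric_of_lt_one h0 h1]
  field_simp

lemma V_refl (x : ℝ) : V lam b (refl G) x = V lam b G (-x) := by
  unfold V refl
  refine tsum_congr fun k => ?_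
  congr 2
  ring

/-- regular pair: up to level `n` the points lie in the same increasing half-period -/
def Reg (b : ℕ) (n : ℕ) (x y : ℝ) : Prop :=
  ∀ k < n, ∃ p : ℤ, (p : ℝ) ≤ (b : ℝ) ^ k * x ∧ (b : ℝ) ^ k * y ≤ p + 1 / 2

lemma G_diff (h : Good G) {x y : ℝ} (hxy : x ≤ y) (p : ℤ) (hp : (p : ℝ) ≤ x)
    (hq : y ≤ p + 1 / 2) : 19 / 20 * (y - x) ≤ G y - G x ∧ G y - G x ≤ 21 / 20 * (y - x) := by
  constructor
  · have := h.up (x - p) (y - p) (by linarith) (by linarith) (by linarith)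
    have e1 : G (x - p) = G x := by
      rw [← h.add_int (x - p) p]; ring_nf
    have e2 : G (y - p) = G y := by
      rw [← h.add_int (y - p) p]; ring_nf
    rw [e1, e2] at this
    linarith
  · have := h.lip y x
    rw [abs_of_nonneg (by linarith : 0 ≤ y - x)] at this
    exact (le_abs_self _).trans this

lemma sum_lower (h : Good G) (h0 : 0 ≤ lam) {n : ℕ} {x y : ℝ} (hxy : x ≤ y)
    (hr : Reg b n x y) :
    19 / 20 * (y - x) * (∑ k ∈ Finset.range n, (lam * b) ^ k) ≤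
      (∑ k ∈ Finset.range n, lam ^ k * G ((b : ℝ) ^ k * y)) -
      (∑ k ∈ Finset.range n, lam ^ k * G ((b : ℝ) ^ k * x)) := by
  rw [← Finset.sum_sub_distrib, Finset.mul_sum]
  refine Finset.sum_le_sum fun k hk => ?_
  obtain ⟨p, hp1, hp2⟩ := hr k (Finset.mem_range.1 hk)
  have hb : (0 : ℝ) ≤ (b : ℝ) ^ k := by positivity
  have := (G_diff h (mul_le_mul_of_nonneg_left hxy hb) p hp1 hp2).1
  have h2 := mul_le_mul_of_nonneg_left this (pow_nonneg h0 k)
  rw [mul_pow]
  nlinarith [h2]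

lemma sum_upper (h : Good G) (h0 : 0 ≤ lam) {n : ℕ} {x y : ℝ} (hxy : x ≤ y)
    (hr : Reg b n x y) :
      (∑ k ∈ Finset.range n, lam ^ k * G ((b : ℝ) ^ k * y)) -
      (∑ k ∈ Finset.range n, lam ^ k * G ((b : ℝ) ^ k * x)) ≤
      21 / 20 * (y - x) * (∑ k ∈ Finset.range n, (lam * b) ^ k) := by
  rw [← Finset.sum_sub_distrib, Finset.mul_sum]
  refine Finset.sum_le_sum fun k hk => ?_
  obtain ⟨p, hp1, hp2⟩ := hr k (Finset.mem_range.1 hk)
  have hb : (0 : ℝ) ≤ (b : ℝ) ^ k := by positivity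
  have := (G_diff h (mul_le_mul_of_nonneg_left hxy hb) p hp1 hp2).2
  have h2 := mul_le_mul_of_nonneg_left this (pow_nonneg h0 k)
  rw [mul_pow]
  nlinarith [h2]

/-- parameter range -/
structure Par (b : ℕ) (lam : ℝ) : Prop where
  hb : 40 ≤ b
  lo : 6 / 5 ≤ lam * b
  hi : lam * b ≤ 5 / 4

lemma Par.bR (h : Par b lam) : (40 : ℝ) ≤ b := by exact_mod_cast h.hb

lemma Par.pos (h : Par b lam) : 0 < lam := by
  have h1 := h.bR
  have h2 := h.lo
  by_contra hc
  push Not at hc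
  nlinarith

lemma Par.le (h : Par b lam) : lam ≤ 1 / 32 := by
  have h1 := h.bR
  have h2 := h.hi
  have h3 := h.pos
  nlinarith

lemma Par.lt_one (h : Par b lam) : lam < 1 := by
  have := h.le; linarith

/-- geometric sums -/
noncomputable def S (b : ℕ) (lam : ℝ) (n : ℕ) : ℝ := ∑ k ∈ Finset.range n, (lam * b) ^ k

lemma S_nonneg (h : Par b lam) (n : ℕ) : 0 ≤ S b lam n := by
  unfold S
  have := h.lo
  exact Finset.sum_nonneg fun k _ => by positivity

lemma S_eq (n : ℕ) : S b lam n * (lam * b - 1) = (lam * b) ^ n - 1 := by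
  unfold S
  exact geom_sum_mul _ _

lemma S_succ (n : ℕ) : S b lam (n + 1) = 1 + (lam * b) * S b lam n := by
  unfold S
  rw [Finset.sum_range_succ', Finset.mul_sum]
  simp only [pow_succ', pow_zero]
  ring

lemma S_le (h : Par b lam) (n : ℕ) : S b lam n ≤ 5 * (lam * b) ^ n := by
  have h1 := S_eq (b := b) (lam := lam) n
  have h2 := h.lo
  have h3 := S_nonneg h n
  nlinarith

lemma S_ge_one (h : Par b lam) {n : ℕ} (hn : 1 ≤ n) : 1 ≤ S b lam n := by
  obtain ⟨m, rfl⟩ := Nat.exists_eq_add_of_le' hn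
  rw [S_succ]
  have := S_nonneg h m
  have := h.lo
  nlinarith

lemma S_five (h : Par b lam) : 67 / 25 * (lam * b) ^ 5 ≤ S b lam 5 := by
  have h1 := h.lo
  have h2 := h.hi
  set r := lam * (b : ℝ) with hr
  unfold S
  rw [← hr]
  simp only [Finset.sum_range_succ, Finset.sum_range_zero]
  have e1 : r ^ 5 ≤ 5 / 4 * r ^ 4 := by
    have : 0 ≤ r ^ 4 := by positivity
    nlinarith
  have e2 : r ^ 4 ≤ 5 / 4 * r ^ 3 := by
    have : 0 ≤ r ^ 3 := by positivity
    nlinarith
  have e3 : r ^ 3 ≤ 5 / 4 * r ^ 2 := by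
    have : 0 ≤ r ^ 2 := by positivity
    nlinarith
  have e4 : r ^ 2 ≤ 5 / 4 * r := by nlinarith
  linarith

lemma S_ge (h : Par b lam) {n : ℕ} (hn : 5 ≤ n) : 67 / 25 * (lam * b) ^ n ≤ S b lam n := by
  induction n, hn using Nat.le_induction with
  | base => exact S_five h
  | succ n hn ih =>
    rw [S_succ, pow_succ']
    have := h.lo
    nlinarith

lemma S_five_le (h : Par b lam) : S b lam 5 ≤ 9 := by
  have h1 := h.lo
  have h2 := h.hi
  set r := lam * (b : ℝ) with hr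
  unfold S
  rw [← hr]
  simp only [Finset.sum_range_succ, Finset.sum_range_zero]
  have e4 : r ^ 2 ≤ 5 / 4 * r := by nlinarith
  have e3 : r ^ 3 ≤ 5 / 4 * r ^ 2 := by
    have : 0 ≤ r ^ 2 := by positivity
    nlinarith
  have e2 : r ^ 4 ≤ 5 / 4 * r ^ 3 := by
    have : 0 ≤ r ^ 3 := by positivity
    nlinarith
  linarith

/-- increments -/
lemma inc_lower (h : Good G) (hp : Par b lam) {n : ℕ} {x y : ℝ} (hxy : x ≤ y)
    (hr : Reg b n x y) :
    19 / 20 * (y - x) * S b lam n +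
      lam ^ n * (V lam b G ((b : ℝ) ^ n * y) - V lam b G ((b : ℝ) ^ n * x)) ≤
    V lam b G y - V lam b G x := by
  rw [V_split h hp.pos.le hp.lt_one n x, V_split h hp.pos.le hp.lt_one n y]
  have := sum_lower h hp.pos.le hxy hr
  unfold S
  linarith

lemma inc_upper (h : Good G) (hp : Par b lam) {n : ℕ} {x y : ℝ} (hxy : x ≤ y)
    (hr : Reg b n x y) :
    V lam b G y - V lam b G x ≤ 21 / 20 * (y - x) * S b lam n +
      lam ^ n * (V lam b G ((b : ℝ) ^ n * y) - V lam b G ((b : ℝ) ^ n * x)) := by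
  rw [V_split h hp.pos.le hp.lt_one n x, V_split h hp.pos.le hp.lt_one n y]
  have := sum_upper h hp.pos.le hxy hr
  unfold S
  linarith

/-- end points of the digit set -/
noncomputable def um (b : ℕ) : ℝ := 1 / ((b : ℝ) - 1)
noncomputable def uq (b : ℕ) : ℝ := (((b / 2 : ℕ) : ℝ) - 1) / ((b : ℝ) - 1)

lemma half_bounds (b : ℕ) : 2 * ((b / 2 : ℕ) : ℝ) ≤ b ∧ (b : ℝ) ≤ 2 * ((b / 2 : ℕ) : ℝ) + 1 := by
  have h1 : 2 * (b / 2) ≤ b := by omega
  have h2 : b ≤ 2 * (b / 2) + 1 := by omega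
  exact ⟨by exact_mod_cast h1, by exact_mod_cast h2⟩

lemma um_pos (hp : Par b lam) : 0 < um b := by
  have := hp.bR
  unfold um
  apply div_pos one_pos; linarith

lemma um_eq (hp : Par b lam) : (b : ℝ) * um b = um b + 1 := by
  have := hp.bR
  unfold um
  have h : (b : ℝ) - 1 ≠ 0 := by linarith
  field_simp
  ring

lemma uq_eq (hp : Par b lam) : (b : ℝ) * uq b = uq b + (((b / 2 : ℕ) : ℝ) - 1) := by
  have := hp.bR
  unfold uq
  have h : (b : ℝ) - 1 ≠ 0 := by linarith
  field_simp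
  ring

lemma ell_ge (hp : Par b lam) : 35 / 78 ≤ uq b - um b := by
  have h1 := hp.bR
  have h2 := (half_bounds b).2
  unfold uq um
  rw [← sub_div, le_div_iff₀ (by linarith)]
  have h3 : (b : ℝ) - 1 ≥ 39 := by linarith
  linarith

lemma uq_le (hp : Par b lam) : uq b ≤ 1 / 2 - um b / 2 := by
  have h1 := hp.bR
  have h2 := (half_bounds b).1
  unfold uq um
  have h : 0 < (b : ℝ) - 1 := by linarith
  rw [div_le_iff₀ h]
  have : 1 / ((b : ℝ) - 1) * ((b : ℝ) - 1) = 1 := by field_simp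
  nlinarith

lemma um_le (hp : Par b lam) : um b ≤ 1 / 39 := by
  have h1 := hp.bR
  unfold um
  rw [div_le_div_iff₀ (by linarith) (by norm_num)]
  linarith

lemma V_um (h : Good G) (hp : Par b lam) : V lam b G (um b) * (1 - lam) = G (um b) := by
  have h1 := V_split (b := b) h hp.pos.le hp.lt_one 1 (um b)
  rw [pow_one, pow_one, um_eq hp] at h1
  have h2 := V_add_int (lam := lam) (b := b) h (um b) 1
  rw [Int.cast_one] at h2
  rw [h2] at h1
  simp at h1
  linarith

lemma V_uq (h : Good G) (hp : Par b lam) : V lam b G (uq b) * (1 - lam) = G (uq b) := by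
  have h1 := V_split (b := b) h hp.pos.le hp.lt_one 1 (uq b)
  rw [pow_one, pow_one, uq_eq hp] at h1
  have h2 := V_add_int (lam := lam) (b := b) h (uq b) (((b / 2 : ℕ) : ℤ) - 1)
  rw [Int.cast_sub, Int.cast_natCast, Int.cast_one] at h2
  rw [h2] at h1
  simp at h1
  linarith

lemma V_uq_um (h : Good G) (hp : Par b lam) :
    19 / 20 * (uq b - um b) ≤ V lam b G (uq b) - V lam b G (um b) := by
  have h1 := V_um h hp
  have h2 := V_uq h hp
  have h3 := ell_ge hp
  have h4 := uq_le hp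
  have h5 := um_pos hp
  have h6 := h.up (um b) (uq b) h5.le (by linarith) (by linarith)
  have h7 := hp.le
  have h8 := hp.pos
  have h9 : 19 / 20 * (uq b - um b) ≤ (V lam b G (uq b) - V lam b G (um b)) * (1 - lam) := by
    linarith
  nlinarith

/-- the points of the Cantor set of strictly increasing crossings -/
def InE (b : ℕ) (x : ℝ) : Prop :=
  (um b ≤ (b : ℝ) ^ 5 * x ∧ (b : ℝ) ^ 5 * x ≤ uq b) ∧
  ∀ k ≥ 5, ∃ p : ℤ, (p : ℝ) + um b ≤ (b : ℝ) ^ k * x ∧ (b : ℝ) ^ k * x ≤ p + uq b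

lemma InE.pos (hp : Par b lam) {x : ℝ} (hx : InE b x) : 0 < x := by
  have h1 := hx.1.1
  have h2 := um_pos hp
  have h3 := hp.bR
  have h4 : (0 : ℝ) < (b : ℝ) ^ 5 := by positivity
  by_contra hc
  push Not at hc
  nlinarith

lemma InE.small (hp : Par b lam) {x : ℝ} (hx : InE b x) {k : ℕ} (hk : k ≤ 5) :
    (b : ℝ) ^ k * x ≤ 1 / 2 * (1 / (b : ℝ) ^ (5 - k)) := by
  have h1 := hx.1.2
  have h2 := uq_le hp
  have h2' := um_pos hp
  have h3 := hp.bR
  have h4 : (0 : ℝ) < (b : ℝ) ^ (5 - k) := by positivity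
  have h5 : (b : ℝ) ^ 5 = (b : ℝ) ^ (5 - k) * (b : ℝ) ^ k := by
    rw [← pow_add]; congr 1; omega
  rw [h5, mul_assoc] at h1
  have h6 : (b : ℝ) ^ k * x = ((b : ℝ) ^ (5 - k) * ((b : ℝ) ^ k * x)) * (1 / (b : ℝ) ^ (5 - k)) := by
    field_simp
  rw [h6]
  apply mul_le_mul_of_nonneg_right _ (by positivity)
  linarith

lemma InE.half (hp : Par b lam) {x : ℝ} (hx : InE b x) {k : ℕ} (hk : k ≤ 5) :
    (b : ℝ) ^ k * x ≤ 1 / 2 := by
  refine (hx.small hp hk).trans ?_
  have h3 := hp.bR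
  have : 1 / (b : ℝ) ^ (5 - k) ≤ 1 := by
    rw [div_le_one (by positivity)]
    exact one_le_pow₀ (by linarith)
  linarith

/-- choose the half-period containing `b ^ k * x` -/
lemma InE.choose (hp : Par b lam) {x : ℝ} (hx : InE b x) :
    ∃ p : ℕ → ℤ, (∀ k, (p k : ℝ) ≤ (b : ℝ) ^ k * x ∧ (b : ℝ) ^ k * x ≤ p k + 1 / 2) ∧
      (∀ k ≥ 5, (p k : ℝ) + um b ≤ (b : ℝ) ^ k * x ∧ (b : ℝ) ^ k * x ≤ p k + uq b) ∧
      (∀ k < 5, p k = 0) := by
  have h1 : ∀ k : ℕ, ∃ p : ℤ, ((p : ℝ) ≤ (b : ℝ) ^ k * x ∧ (b : ℝ) ^ k * x ≤ p + 1 / 2) ∧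
      (5 ≤ k → (p : ℝ) + um b ≤ (b : ℝ) ^ k * x ∧ (b : ℝ) ^ k * x ≤ p + uq b) ∧
      (k < 5 → p = 0) := by
    intro k
    rcases lt_or_ge k 5 with hk | hk
    · refine ⟨0, ⟨?_, ?_⟩, fun h => absurd h (by omega), fun _ => rfl⟩
      · have := hx.pos hp
        have := hp.bR
        push_cast
        positivity
      · have := hx.half hp hk.le
        push_cast
        linarith
    · obtain ⟨p, hp1, hp2⟩ := hx.2 k hk
      have h2 := uq_le hp
      have h3 := um_pos hp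
      exact ⟨p, ⟨by linarith, by linarith⟩, fun _ => ⟨hp1, hp2⟩, fun h => absurd h (by omega)⟩
  choose p hp' using h1
  exact ⟨p, fun k => (hp' k).1, fun k hk => (hp' k).2.1 hk, fun k hk => (hp' k).2.2 hk⟩

/-- one-step lower bound at the first failing level -/
lemma fail_step (h : Good G) (hp : Par b lam) (u v : ℝ) :
    -(21 / 20 * |u - v|) - lam * (21 / 40 / (1 - lam)) ≤ V lam b G u - V lam b G v := by
  have h1 := V_split (b := b) h hp.pos.le hp.lt_one 1 u
  have h2 := V_split (b := b) h hp.pos.le hp.lt_one 1 v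
  have h3 := V_sub_le (b := b) h hp.pos.le hp.lt_one ((b : ℝ) ^ 1 * u) ((b : ℝ) ^ 1 * v)
  have h4 := h.lip u v
  simp only [Finset.sum_range_one, pow_zero, one_mul, pow_one] at h1 h2 h3
  rw [h1, h2]
  have h5 := (abs_le.1 h3).1
  have h6 := (abs_le.1 h4).1
  have h7 := mul_le_mul_of_nonneg_left h5 hp.pos.le
  linarith

/-- the key estimate when the first failing level is at least `5` -/
lemma key_big (h : Good G) (hp : Par b lam) {n : ℕ} (hn : 5 ≤ n) {x y : ℝ} (hxy : x < y)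
    (hr : Reg b n x y) (hd : um b / 2 ≤ (b : ℝ) ^ n * (y - x)) :
    V lam b G x < V lam b G y := by
  have h1 := inc_lower h hp hxy.le hr
  have h2 := fail_step (b := b) h hp ((b : ℝ) ^ n * y) ((b : ℝ) ^ n * x)
  have h3 := S_ge hp hn
  have h4 := hp.pos
  have h5 := hp.le
  have h6 := hp.bR
  have h7 := hp.hi
  have hbn : (0 : ℝ) < (b : ℝ) ^ n := by positivity
  have hD : 0 < y - x := by linarith
  have hln : (0 : ℝ) < lam ^ n := by positivity
  have e1 : |(b : ℝ) ^ n * y - (b : ℝ) ^ n * x| = (b : ℝ) ^ n * (y - x) := by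
    rw [← mul_sub, abs_of_nonneg (by positivity)]
  rw [e1] at h2
  have h8 := mul_le_mul_of_nonneg_left h2 hln.le
  have e2 : lam ^ n * (b : ℝ) ^ n = (lam * b) ^ n := by rw [mul_pow]
  -- bound of the constant tail
  have h9 : lam * (21 / 40 / (1 - lam)) ≤ 27 / 20 * ((b : ℝ) ^ n * (y - x)) := by
    have a1 : 1 / ((b : ℝ) - 1) ≤ 2 * ((b : ℝ) ^ n * (y - x)) := by
      unfold um at hd; linarith
    have a2 : 0 < (b : ℝ) - 1 := by linarith
    have a3 : 1 ≤ 2 * ((b : ℝ) ^ n * (y - x)) * ((b : ℝ) - 1) := by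
      rwa [div_le_iff₀ a2] at a1
    have a4 : lam * (21 / 40 / (1 - lam)) = 21 / 40 * lam / (1 - lam) := by ring
    rw [a4, div_le_iff₀ (by linarith)]
    have a5 : lam ≤ lam * (2 * ((b : ℝ) ^ n * (y - x)) * ((b : ℝ) - 1)) := by
      nlinarith
    have a6 : lam * (2 * ((b : ℝ) ^ n * (y - x)) * ((b : ℝ) - 1)) =
      2 * ((b : ℝ) ^ n * (y - x)) * (lam * b - lam) := by ring
    rw [a6] at a5
    have a7 : 0 < (b : ℝ) ^ n * (y - x) := by positivity
    nlinarith
  have h10 := mul_le_mul_of_nonneg_left h9 hln.le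
  have e3 : lam ^ n * (27 / 20 * ((b : ℝ) ^ n * (y - x))) = 27 / 20 * ((lam * b) ^ n * (y - x)) := by
    rw [← e2]; ring
  have e4 : lam ^ n * (-(21 / 20 * ((b : ℝ) ^ n * (y - x))) - lam * (21 / 40 / (1 - lam))) =
      -(21 / 20 * ((lam * b) ^ n * (y - x))) - lam ^ n * (lam * (21 / 40 / (1 - lam))) := by
    rw [← e2]; ring
  rw [e4] at h8
  rw [e3] at h10
  have hR : 0 < (lam * b) ^ n * (y - x) := by
    rw [← e2]; positivity
  have h11 : 19 / 20 * (y - x) * (67 / 25 * (lam * b) ^ n) ≤ 19 / 20 * (y - x) * S b lam n :=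
    mul_le_mul_of_nonneg_left h3 (by positivity)
  nlinarith

lemma G_ge_zero (h : Good G) (t : ℝ) : G 0 ≤ G t := by
  have e : G t = G (Int.fract t) := by
    conv_lhs => rw [← Int.fract_add_floor t]
    rw [h.add_int]
  rw [e]
  have f1 := Int.fract_nonneg t
  have f2 := (Int.fract_lt_one t).le
  rcases le_total (Int.fract t) (1 / 2) with hc | hc
  · have := h.up 0 (Int.fract t) le_rfl f1 hc
    nlinarith
  · have h1 := h.down 0 (1 - Int.fract t) le_rfl (by linarith) (by linarith)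
    have h2 := h.per (-(1 - Int.fract t))
    have h3 : -(1 - Int.fract t) + 1 = Int.fract t := by ring
    rw [h3] at h2
    rw [← h2] at h1
    simp only [neg_zero] at h1
    nlinarith

lemma V_ge_zero (h : Good G) (hp : Par b lam) (t : ℝ) : V lam b G 0 ≤ V lam b G t := by
  unfold V
  refine Summable.tsum_le_tsum (fun k => ?_) (summable_V h hp.pos.le hp.lt_one 0)
    (summable_V h hp.pos.le hp.lt_one t)
  have := G_ge_zero h ((b : ℝ) ^ k * t)
  rw [mul_zero]
  exact mul_le_mul_of_nonneg_left this (pow_nonneg hp.pos.le k)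

/-- values at points of `E` are small -/
lemma V_InE_le (h : Good G) (hp : Par b lam) {x : ℝ} (hx : InE b x) :
    V lam b G x - V lam b G 0 ≤ 7 * (1 / (b : ℝ) ^ 5) := by
  have hpos := hx.pos hp
  have hb := hp.bR
  have hl := hp.pos
  have hr : Reg b 5 0 x := by
    intro k hk
    refine ⟨0, by simp, ?_⟩
    have := hx.half hp hk.le
    push_cast
    linarith
  have h1 := inc_upper h hp hpos.le hr
  have h2 := V_sub_le (b := b) h hp.pos.le hp.lt_one ((b : ℝ) ^ 5 * x) ((b : ℝ) ^ 5 * 0)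
  have h3 := (abs_le.1 h2).2
  have h4 := S_five_le hp
  have h5 := hp.le
  have h6 := hx.small hp (k := 0) (by norm_num)
  simp only [pow_zero, one_mul] at h6
  rw [show 5 - 0 = 5 by rfl] at h6
  have hB : (0 : ℝ) < 1 / (b : ℝ) ^ 5 := by positivity
  have h7 : lam ^ 5 ≤ 16 / 5 * (1 / (b : ℝ) ^ 5) := by
    rw [mul_one_div, le_div_iff₀ (by positivity), ← mul_pow]
    have a1 := hp.hi
    have a2 := hp.lo
    calc (lam * b) ^ 5 ≤ (5 / 4) ^ 5 := by
          apply pow_le_pow_left₀ (by linarith) a1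
      _ ≤ 16 / 5 := by norm_num
  have h8 : 21 / 40 / (1 - lam) ≤ 11 / 20 := by
    rw [div_le_iff₀ (by linarith)]
    linarith
  have h9 : lam ^ 5 * (V lam b G ((b : ℝ) ^ 5 * x) - V lam b G ((b : ℝ) ^ 5 * 0)) ≤
      16 / 5 * (1 / (b : ℝ) ^ 5) * (11 / 20) := by
    have a1 : V lam b G ((b : ℝ) ^ 5 * x) - V lam b G ((b : ℝ) ^ 5 * 0) ≤ 11 / 20 := by linarith
    have a2 : 0 ≤ lam ^ 5 := by positivity
    calc _ ≤ lam ^ 5 * (11 / 20) := mul_le_mul_of_nonneg_left a1 a2
      _ ≤ _ := by linarith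
  have h10 : 21 / 20 * (x - 0) * S b lam 5 ≤ 21 / 20 * (1 / 2 * (1 / (b : ℝ) ^ 5)) * 9 := by
    have a1 := S_nonneg hp 5
    have a2 : 21 / 20 * (x - 0) ≤ 21 / 20 * (1 / 2 * (1 / (b : ℝ) ^ 5)) := by linarith
    exact mul_le_mul a2 h4 a1 (by positivity)
  linarith

/-- strict crossing property -/
lemma crossing (h : Good G) (hp : Par b lam) {x₁ : ℝ} (hx : InE b x₁) {x : ℝ} (hx0 : 0 ≤ x)
    (hx1 : x ≤ 1 / 2) (hne : x ≠ x₁) :
    (x₁ < x ∧ V lam b G x₁ < V lam b G x) ∨ (x < x₁ ∧ V lam b G x < V lam b G x₁) := by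
  obtain ⟨p, hpA, hpB, hp0⟩ := hx.choose hp
  have hb := hp.bR
  have hex : ∃ k : ℕ, ¬ ((p k : ℝ) ≤ (b : ℝ) ^ k * x ∧ (b : ℝ) ^ k * x ≤ p k + 1 / 2) := by
    have hD : 0 < |x - x₁| := abs_pos.2 (sub_ne_zero.2 hne)
    obtain ⟨k, hk⟩ := pow_unbounded_of_one_lt (1 / |x - x₁|) (show (1 : ℝ) < b by linarith)
    refine ⟨k, fun hc => ?_⟩
    have h1 := hpA k
    have h2 : |(b : ℝ) ^ k * x - (b : ℝ) ^ k * x₁| ≤ 1 / 2 := by
      rw [abs_le]; constructor <;> linarith [h1.1, h1.2, hc.1, hc.2]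
    rw [← mul_sub, abs_mul, abs_of_pos (by positivity : (0 : ℝ) < (b : ℝ) ^ k)] at h2
    rw [div_lt_iff₀ hD] at hk
    linarith
  classical
  set n := Nat.find hex with hn
  have hfail := Nat.find_spec hex
  rw [← hn] at hfail
  have hok : ∀ k < n, (p k : ℝ) ≤ (b : ℝ) ^ k * x ∧ (b : ℝ) ^ k * x ≤ p k + 1 / 2 := by
    intro k hk
    have := Nat.find_min hex hk
    push Not at this
    exact ⟨this.1, this.2⟩
  have hu := um_pos hp
  have hq := uq_le hp
  rcases lt_or_ge n 5 with hn5 | hn5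
  · -- early failure
    left
    have hn1 : 1 ≤ n := by
      by_contra hc
      have : n = 0 := by omega
      rw [this] at hfail
      apply hfail
      rw [hp0 0 (by norm_num)]
      push_cast
      constructor <;> linarith
    rw [hp0 n hn5] at hfail
    push_cast at hfail
    have hbig : 1 / 2 < (b : ℝ) ^ n * x := by
      by_contra hc
      push Not at hc
      exact hfail ⟨by positivity, by linarith⟩
    have hlt : x₁ < x := by
      have := hx.half hp hn5.le
      have h3 : (b : ℝ) ^ n * x₁ < (b : ℝ) ^ n * x := by linarith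
      exact lt_of_mul_lt_mul_left h3 (by positivity)
    refine ⟨hlt, ?_⟩
    have hr : Reg b n 0 x := by
      intro k hk
      have h1 := hok k hk
      rw [hp0 k (by omega)] at h1
      exact ⟨0, by simp, h1.2⟩
    have h1 := inc_lower h hp hx0 hr
    have h2 := V_ge_zero h hp ((b : ℝ) ^ n * x)
    have h3 : 0 ≤ lam ^ n * (V lam b G ((b : ℝ) ^ n * x) - V lam b G ((b : ℝ) ^ n * 0)) := by
      rw [mul_zero]
      exact mul_nonneg (pow_nonneg hp.pos.le _) (by linarith)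
    have h4 := S_ge_one hp hn1
    have h5 := V_InE_le h hp hx
    have h6 : 1 / 2 * (1 / (b : ℝ) ^ 4) ≤ x := by
      have a1 : (b : ℝ) ^ n ≤ (b : ℝ) ^ 4 := pow_le_pow_right₀ (by linarith) (by omega)
      have a2 : 1 / 2 < (b : ℝ) ^ 4 * x := lt_of_lt_of_le hbig (mul_le_mul_of_nonneg_right a1 hx0)
      rw [mul_one_div, div_le_iff₀ (by positivity)]
      linarith
    have h7 : (40 : ℝ) * (1 / (b : ℝ) ^ 5) ≤ 1 / (b : ℝ) ^ 4 := by
      rw [mul_one_div, div_le_div_iff₀ (by positivity) (by positivity)]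
      have : (0 : ℝ) < (b : ℝ) ^ 4 := by positivity
      nlinarith
    have h8 : 19 / 20 * (x - 0) * 1 ≤ 19 / 20 * (x - 0) * S b lam n :=
      mul_le_mul_of_nonneg_left h4 (by linarith)
    have hB : (0 : ℝ) < 1 / (b : ℝ) ^ 5 := by positivity
    linarith
  · have hBn := hpB n hn5
    rcases lt_or_gt_of_ne hne with hlt | hlt
    · right
      refine ⟨hlt, ?_⟩
      refine key_big h hp hn5 hlt ?_ ?_
      · intro k hk
        exact ⟨p k, (hok k hk).1, (hpA k).2⟩
      · by_contra hc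
        push Not at hc
        apply hfail
        have : (b : ℝ) ^ n * x < (b : ℝ) ^ n * x₁ := mul_lt_mul_of_pos_left hlt (by positivity)
        rw [mul_sub] at hc
        constructor <;> linarith [hBn.1, hBn.2]
    · left
      refine ⟨hlt, ?_⟩
      refine key_big h hp hn5 hlt ?_ ?_
      · intro k hk
        exact ⟨p k, (hpA k).1, (hok k hk).2⟩
      · by_contra hc
        push Not at hc
        apply hfail
        have : (b : ℝ) ^ n * x₁ < (b : ℝ) ^ n * x := mul_lt_mul_of_pos_left hlt (by positivity)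
        rw [mul_sub] at hc
        constructor <;> linarith [hBn.1, hBn.2]

end

end Pool.Agent.Work.MP_935c4d_an
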