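import Pool.Agent.Work.MP_935c4d_an.Core

namespace Pool.Agent.Work.MP_935c4d_an

open Set Filter Topology

section

variable {lam : ℝ} {b : ℕ} {G H : ℝ → ℝ}

lemma V_scale (h : Good G) (hp : Par b lam) (n : ℕ) (P : ℤ) (u : ℝ) :
    V lam b G ((b : ℝ) ^ n * (((P : ℝ) + u) / (b : ℝ) ^ n)) = V lam b G u := by
  have hb := hp.bR
  have : (b : ℝ) ^ n * (((P : ℝ) + u) / (b : ℝ) ^ n) = u + P := by
    field_simp
    ring
  rw [this, V_add_int h]

lemma child_len (h : Good H) (hp : Par b lam) {n : ℕ} {Q : ℤ}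
    (hr : Reg b n ((Q + um b) / (b : ℝ) ^ n) ((Q + uq b) / (b : ℝ) ^ n)) :
    19 / 20 * ((uq b - um b) / (b : ℝ) ^ n) * S b lam n + lam ^ n * (19 / 20 * (uq b - um b)) ≤
      V lam b H ((Q + uq b) / (b : ℝ) ^ n) - V lam b H ((Q + um b) / (b : ℝ) ^ n) := by
  have hb := hp.bR
  have hl := ell_ge hp
  have hle : ((Q : ℝ) + um b) / (b : ℝ) ^ n ≤ ((Q : ℝ) + uq b) / (b : ℝ) ^ n := by
    apply div_le_div_of_nonneg_right _ (by positivity)
    linarith
  have h1 := inc_lower h hp hle hr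
  rw [V_scale h hp, V_scale h hp] at h1
  have h2 := V_uq_um (b := b) h hp
  have h3 := mul_le_mul_of_nonneg_left h2 (pow_nonneg hp.pos.le n)
  have h4 : ((Q : ℝ) + uq b) / (b : ℝ) ^ n - ((Q : ℝ) + um b) / (b : ℝ) ^ n =
    (uq b - um b) / (b : ℝ) ^ n := by
    rw [← sub_div]; ring
  rw [h4] at h1
  linarith

lemma child_pos (h : Good H) (hp : Par b lam) {n : ℕ} {Q : ℤ}
    (hr : Reg b n ((Q + um b) / (b : ℝ) ^ n) ((Q + uq b) / (b : ℝ) ^ n)) :
    V lam b H ((Q + um b) / (b : ℝ) ^ n) ≤ V lam b H ((Q + uq b) / (b : ℝ) ^ n) := by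
  have h1 := child_len h hp hr
  have hb := hp.bR
  have hl := ell_ge hp
  have h2 := S_nonneg hp n
  have h3 : 0 ≤ 19 / 20 * ((uq b - um b) / (b : ℝ) ^ n) * S b lam n := by
    apply mul_nonneg _ h2
    apply mul_nonneg (by norm_num)
    apply div_nonneg (by linarith) (by positivity)
  have h4 : 0 ≤ lam ^ n * (19 / 20 * (uq b - um b)) :=
    mul_nonneg (pow_nonneg hp.pos.le n) (by linarith)
  linarith

lemma gap_len (h : Good G) (hp : Par b lam) {n : ℕ} {P : ℤ}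
    (hr : Reg b n ((P + uq b) / (b : ℝ) ^ n) (((P + 1 : ℤ) + um b) / (b : ℝ) ^ n)) :
    V lam b G (((P + 1 : ℤ) + um b) / (b : ℝ) ^ n) - V lam b G ((P + uq b) / (b : ℝ) ^ n) ≤
    21 / 20 * ((1 - (uq b - um b)) / (b : ℝ) ^ n) * S b lam n -
      lam ^ n * (19 / 20 * (uq b - um b)) := by
  have hb := hp.bR
  have hl := uq_le hp
  have hm := um_pos hp
  have hle : ((P : ℝ) + uq b) / (b : ℝ) ^ n ≤ (((P + 1 : ℤ) : ℝ) + um b) / (b : ℝ) ^ n := by
    apply div_le_div_of_nonneg_right _ (by positivity)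
    push_cast
    linarith
  have h1 := inc_upper h hp hle hr
  rw [V_scale h hp, V_scale h hp] at h1
  have h2 := V_uq_um (b := b) h hp
  have h3 := mul_le_mul_of_nonneg_left h2 (pow_nonneg hp.pos.le n)
  have h4 : (((P + 1 : ℤ) : ℝ) + um b) / (b : ℝ) ^ n - ((P : ℝ) + uq b) / (b : ℝ) ^ n =
    (1 - (uq b - um b)) / (b : ℝ) ^ n := by
    rw [← sub_div]; push_cast; ring
  rw [h4] at h1
  linarith

lemma gap_lt_child (h : Good G) (h' : Good H) (hp : Par b lam) {n : ℕ} {P Q : ℤ}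
    (hr : Reg b n ((P + uq b) / (b : ℝ) ^ n) (((P + 1 : ℤ) + um b) / (b : ℝ) ^ n))
    (hr' : Reg b n ((Q + um b) / (b : ℝ) ^ n) ((Q + uq b) / (b : ℝ) ^ n)) :
    V lam b G (((P + 1 : ℤ) + um b) / (b : ℝ) ^ n) - V lam b G ((P + uq b) / (b : ℝ) ^ n) ≤
    V lam b H ((Q + uq b) / (b : ℝ) ^ n) - V lam b H ((Q + um b) / (b : ℝ) ^ n) := by
  refine (gap_len h hp hr).trans (le_trans ?_ (child_len h' hp hr'))
  have hb := hp.bR
  have hl := ell_ge hp
  have hl2 := uq_le hp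
  have hm := um_pos hp
  have hS := S_le hp n
  have hS0 := S_nonneg hp n
  set L := uq b - um b with hL
  have hbn : (0 : ℝ) < (b : ℝ) ^ n := by positivity
  have e : lam ^ n = (lam * b) ^ n / (b : ℝ) ^ n := by
    rw [mul_pow]; field_simp
  have h1 : 21 / 20 * ((1 - L) / (b : ℝ) ^ n) * S b lam n - lam ^ n * (19 / 20 * L) =
    (21 / 20 * (1 - L) * S b lam n - (lam * b) ^ n * (19 / 20 * L)) / (b : ℝ) ^ n := by
    rw [e]; ring
  have h2 : 19 / 20 * (L / (b : ℝ) ^ n) * S b lam n + lam ^ n * (19 / 20 * L) =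
    (19 / 20 * L * S b lam n + (lam * b) ^ n * (19 / 20 * L)) / (b : ℝ) ^ n := by
    rw [e]; ring
  rw [h1, h2]
  apply div_le_div_of_nonneg_right _ hbn.le
  have h3 : (21 / 20 - 2 * L) * S b lam n ≤ (21 / 20 - 2 * L) * (5 * (lam * b) ^ n) :=
    mul_le_mul_of_nonneg_left hS (by linarith)
  have h4 : 0 < (lam * (b : ℝ)) ^ n := by
    have := hp.lo
    positivity
  nlinarith

lemma reg_child (hp : Par b lam) {M : ℕ} {P : ℤ}
    (hr : Reg b M ((P : ℝ) / (b : ℝ) ^ M) (((P : ℝ) + 1) / (b : ℝ) ^ M)) {s t : ℝ} (hs : 0 ≤ s)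
    (ht : t ≤ ((b / 2 : ℕ) : ℝ)) :
    Reg b (M + 1) (((b : ℝ) * P + s) / (b : ℝ) ^ (M + 1))
      (((b : ℝ) * P + t) / (b : ℝ) ^ (M + 1)) := by
  have hb := hp.bR
  have hN := (half_bounds b).1
  intro k hk
  rcases Nat.lt_succ_iff_lt_or_eq.1 hk with hk' | rfl
  · obtain ⟨p, hp1, hp2⟩ := hr k hk'
    refine ⟨p, hp1.trans ?_, le_trans ?_ hp2⟩
    · apply mul_le_mul_of_nonneg_left _ (by positivity)
      rw [pow_succ, div_le_div_iff₀ (by positivity) (by positivity)]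
      have : (0 : ℝ) < (b : ℝ) ^ M := by positivity
      nlinarith [mul_nonneg hs this.le]
    · apply mul_le_mul_of_nonneg_left _ (by positivity)
      rw [pow_succ, div_le_div_iff₀ (by positivity) (by positivity)]
      have : (0 : ℝ) < (b : ℝ) ^ M := by positivity
      nlinarith [mul_le_mul_of_nonneg_right (show t ≤ (b : ℝ) by linarith) this.le]
  · refine ⟨P, ?_, ?_⟩
    · rw [pow_succ]
      have : (b : ℝ) ^ k * (((b : ℝ) * P + s) / ((b : ℝ) ^ k * b)) = P + s / b := by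
        field_simp
      rw [this]
      have : 0 ≤ s / b := by positivity
      linarith
    · rw [pow_succ]
      have : (b : ℝ) ^ k * (((b : ℝ) * P + t) / ((b : ℝ) ^ k * b)) = P + t / b := by
        field_simp
      rw [this]
      have : t / b ≤ 1 / 2 := by
        rw [div_le_iff₀ (by positivity)]
        linarith
      linarith

/-- state of the construction -/
structure St (b : ℕ) (lam : ℝ) (G H : ℝ → ℝ) (M : ℕ) (P Q : ℤ) : Prop where
  regP : Reg b M ((P : ℝ) / (b : ℝ) ^ M) (((P : ℝ) + 1) / (b : ℝ) ^ M)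
  regQ : Reg b M ((Q : ℝ) / (b : ℝ) ^ M) (((Q : ℝ) + 1) / (b : ℝ) ^ M)
  h1 : V lam b G (((P : ℝ) + um b) / (b : ℝ) ^ M) ≤ V lam b H (((Q : ℝ) + uq b) / (b : ℝ) ^ M)
  h2 : V lam b H (((Q : ℝ) + um b) / (b : ℝ) ^ M) ≤ V lam b G (((P : ℝ) + uq b) / (b : ℝ) ^ M)

lemma St.symm {M : ℕ} {P Q : ℤ} (h : St b lam G H M P Q) : St b lam H G M Q P :=
  ⟨h.regQ, h.regP, h.h2, h.h1⟩

lemma first_pt (hp : Par b lam) (M : ℕ) (Q : ℤ) :
    (((b * Q + 1 : ℤ) : ℝ) + um b) / (b : ℝ) ^ (M + 1) = ((Q : ℝ) + um b) / (b : ℝ) ^ M := by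
  have hb := hp.bR
  have h1 := um_eq hp
  rw [pow_succ, div_eq_div_iff (by positivity) (by positivity)]
  push_cast
  have : (b : ℝ) * Q + 1 + um b = b * (Q + um b) := by linarith
  rw [this]; ring

lemma last_pt (hp : Par b lam) (M : ℕ) (Q : ℤ) :
    (((b * Q + ((b / 2 : ℕ) - 1) : ℤ) : ℝ) + uq b) / (b : ℝ) ^ (M + 1) =
      ((Q : ℝ) + uq b) / (b : ℝ) ^ M := by
  have hb := hp.bR
  have h1 := uq_eq hp
  rw [pow_succ, div_eq_div_iff (by positivity) (by positivity)]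
  rw [Int.cast_add, Int.cast_mul, Int.cast_sub, Int.cast_natCast, Int.cast_natCast, Int.cast_one]
  have : (b : ℝ) * Q + (((b / 2 : ℕ) : ℝ) - 1) + uq b = b * (Q + uq b) := by linarith
  rw [this]; ring

lemma step_aux (h : Good G) (h' : Good H) (hp : Par b lam) {M : ℕ} {P Q : ℤ}
    (hs : St b lam G H M P Q)
    (hle : V lam b G (((P : ℝ) + um b) / (b : ℝ) ^ M) ≤
      V lam b H (((Q : ℝ) + um b) / (b : ℝ) ^ M)) :
    ∃ d : ℤ, 1 ≤ d ∧ d ≤ (b / 2 : ℕ) - 1 ∧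
      St b lam G H (M + 1) (b * P + d) (b * Q + 1) := by
  have hb := hp.bR
  have hb40 := hp.hb
  have hN2 : 20 ≤ b / 2 := by omega
  have hm0 := um_pos hp
  have hm1 := um_le hp
  have hu1 := uq_le hp
  have hell := ell_ge hp
  have hNR : (20 : ℝ) ≤ ((b / 2 : ℕ) : ℝ) := by exact_mod_cast hN2
  -- regularity helper
  have rg : ∀ (R : ℤ), Reg b M ((R : ℝ) / (b : ℝ) ^ M) (((R : ℝ) + 1) / (b : ℝ) ^ M) →
      ∀ (d : ℤ) (s t : ℝ), 1 ≤ d → d ≤ (b / 2 : ℕ) - 1 → 0 ≤ s → t ≤ 1 →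
      Reg b (M + 1) ((((b * R + d : ℤ) : ℝ) + s) / (b : ℝ) ^ (M + 1))
        ((((b * R + d : ℤ) : ℝ) + t) / (b : ℝ) ^ (M + 1)) := by
    intro R hR d s t hd1 hd2 hs0 ht1
    have hd1' : (1 : ℝ) ≤ d := by exact_mod_cast hd1
    have hd2' : (d : ℝ) ≤ ((b / 2 : ℕ) : ℝ) - 1 := by exact_mod_cast hd2
    have := reg_child hp hR (s := d + s) (t := d + t) (by linarith) (by linarith)
    have e1 : (((b * R + d : ℤ) : ℝ) + s) = (b : ℝ) * R + (d + s) := by push_cast; ring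
    have e2 : (((b * R + d : ℤ) : ℝ) + t) = (b : ℝ) * R + (d + t) := by push_cast; ring
    rw [e1, e2]
    exact this
  have rg' : ∀ (R : ℤ), Reg b M ((R : ℝ) / (b : ℝ) ^ M) (((R : ℝ) + 1) / (b : ℝ) ^ M) →
      ∀ (d : ℤ), 1 ≤ d → d ≤ (b / 2 : ℕ) - 1 →
      Reg b (M + 1) ((((b * R + d : ℤ) : ℝ)) / (b : ℝ) ^ (M + 1))
        ((((b * R + d : ℤ) : ℝ) + 1) / (b : ℝ) ^ (M + 1)) := by
    intro R hR d hd1 hd2
    have := rg R hR d 0 1 hd1 hd2 le_rfl le_rfl
    simpa using this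
  -- the child of Q
  have hQc := rg Q hs.regQ 1 (um b) (uq b) le_rfl (by omega) hm0.le (by linarith)
  have hQpos := child_pos (Q := b * Q + 1) h' hp (by exact_mod_cast hQc)
  set l' := V lam b H (((Q : ℝ) + um b) / (b : ℝ) ^ M) with hl'
  set r' := V lam b H ((((b * Q + 1 : ℤ) : ℝ) + uq b) / (b : ℝ) ^ (M + 1)) with hr'
  have hl'2 : l' = V lam b H ((((b * Q + 1 : ℤ) : ℝ) + um b) / (b : ℝ) ^ (M + 1)) := by
    rw [hl', first_pt hp]
  rw [← hl'2] at hQpos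
  -- induction on the digit
  have key : ∀ m : ℕ, m + 1 ≤ b / 2 - 1 →
      (∃ d : ℤ, 1 ≤ d ∧ d ≤ (b / 2 : ℕ) - 1 ∧ St b lam G H (M + 1) (b * P + d) (b * Q + 1)) ∨
      V lam b G ((((b * P + (m + 1 : ℕ) : ℤ) : ℝ) + uq b) / (b : ℝ) ^ (M + 1)) < l' := by
    intro m
    induction m with
    | zero =>
      intro _
      by_cases hc : l' ≤ V lam b G ((((b * P + 1 : ℤ) : ℝ) + uq b) / (b : ℝ) ^ (M + 1))
      · left
        refine ⟨1, le_rfl, by omega, rg' P hs.regP 1 le_rfl (by omega),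
          rg' Q hs.regQ 1 le_rfl (by omega), ?_, ?_⟩
        · rw [first_pt hp]
          exact hle.trans hQpos
        · rw [← hl'2]
          exact hc
      · right
        push Not at hc
        simpa using hc
    | succ m ih =>
      intro hm
      rcases ih (by omega) with hA | hA
      · left; exact hA
      · have hd1 : (1 : ℤ) ≤ (m + 1 + 1 : ℕ) := by omega
        have hd2 : ((m + 1 + 1 : ℕ) : ℤ) ≤ (b / 2 : ℕ) - 1 := by omega
        -- gap estimate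
        have hgr : Reg b (M + 1) ((((b * P + (m + 1 : ℕ) : ℤ) : ℝ) + uq b) / (b : ℝ) ^ (M + 1))
            ((((b * P + (m + 1 : ℕ) + 1 : ℤ) : ℝ) + um b) / (b : ℝ) ^ (M + 1)) := by
          have := reg_child hp hs.regP (s := ((m + 1 : ℕ) : ℝ) + uq b)
            (t := ((m + 1 : ℕ) : ℝ) + 1 + um b) (by
              have : (0 : ℝ) ≤ ((m + 1 : ℕ) : ℝ) := by positivity
              linarith) (by
              have : ((m + 1 + 1 : ℕ) : ℝ) ≤ ((b / 2 : ℕ) : ℝ) - 1 := by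
                exact_mod_cast hd2
              push_cast at this ⊢
              linarith)
          have e1 : (((b * P + (m + 1 : ℕ) : ℤ) : ℝ) + uq b) =
            (b : ℝ) * P + (((m + 1 : ℕ) : ℝ) + uq b) := by push_cast; ring
          have e2 : (((b * P + (m + 1 : ℕ) + 1 : ℤ) : ℝ) + um b) =
            (b : ℝ) * P + (((m + 1 : ℕ) : ℝ) + 1 + um b) := by push_cast; ring
          rw [e1, e2]
          exact this
        have hg := gap_lt_child h h' hp hgr hQc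
        rw [← hr', ← hl'2] at hg
        have e3 : (b * P + (m + 1 : ℕ) + 1 : ℤ) = b * P + (m + 1 + 1 : ℕ) := by push_cast; ring
        rw [e3] at hg
        by_cases hc : l' ≤ V lam b G ((((b * P + (m + 1 + 1 : ℕ) : ℤ) : ℝ) + uq b) /
            (b : ℝ) ^ (M + 1))
        · left
          refine ⟨(m + 1 + 1 : ℕ), hd1, hd2, rg' P hs.regP _ hd1 hd2,
            rg' Q hs.regQ 1 le_rfl (by omega), ?_, ?_⟩
          · linarith
          · rw [← hl'2]
            exact hc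
        · right
          push Not at hc
          exact hc
  rcases key (b / 2 - 2) (by omega) with hA | hA
  · exact hA
  · exfalso
    have e4 : (((b / 2 - 2 + 1 : ℕ) : ℤ)) = ((b / 2 : ℕ) - 1 : ℤ) := by omega
    rw [e4, last_pt hp] at hA
    exact absurd hs.h2 (not_le.2 hA)

lemma step (h : Good G) (h' : Good H) (hp : Par b lam) {M : ℕ} {P Q : ℤ}
    (hs : St b lam G H M P Q) :
    ∃ d e : ℤ, (1 ≤ d ∧ d ≤ (b / 2 : ℕ) - 1) ∧ (1 ≤ e ∧ e ≤ (b / 2 : ℕ) - 1) ∧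
      St b lam G H (M + 1) (b * P + d) (b * Q + e) := by
  have hb40 := hp.hb
  rcases le_total (V lam b G (((P : ℝ) + um b) / (b : ℝ) ^ M))
      (V lam b H (((Q : ℝ) + um b) / (b : ℝ) ^ M)) with hle | hle
  · obtain ⟨d, hd1, hd2, hd⟩ := step_aux h h' hp hs hle
    exact ⟨d, 1, ⟨hd1, hd2⟩, ⟨le_rfl, by omega⟩, hd⟩
  · obtain ⟨d, hd1, hd2, hd⟩ := step_aux h' h hp hs.symm hle
    exact ⟨1, d, ⟨le_rfl, by omega⟩, ⟨hd1, hd2⟩, hd.symm⟩

lemma V_zero (h : Good G) (hp : Par b lam) : V lam b G 0 * (1 - lam) = G 0 := by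
  have h1 := V_split (b := b) h hp.pos.le hp.lt_one 1 0
  rw [pow_one, pow_one, mul_zero] at h1
  simp at h1
  linarith

lemma start_le (h : Good G) (h' : Good H) (hp : Par b lam) (h0 : G 0 = H 0) :
    V lam b G (um b / (b : ℝ) ^ 5) ≤ V lam b H (uq b / (b : ℝ) ^ 5) := by
  have hb := hp.bR
  have hm0 := um_pos hp
  have hm1 := um_le hp
  have hu1 := uq_le hp
  have hell := ell_ge hp
  have hS := S_nonneg hp 5
  have r1 : ∀ u : ℝ, 0 ≤ u → u ≤ 1 / 2 → Reg b 5 0 (u / (b : ℝ) ^ 5) := by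
    intro u hu0 hu1 k hk
    refine ⟨0, by simp, ?_⟩
    push_cast
    have e : (b : ℝ) ^ k * (u / (b : ℝ) ^ 5) = u / (b : ℝ) ^ (5 - k) := by
      have : (b : ℝ) ^ 5 = (b : ℝ) ^ (5 - k) * (b : ℝ) ^ k := by
        rw [← pow_add]; congr 1; omega
      rw [this]; field_simp
    rw [e, zero_add, div_le_iff₀ (by positivity)]
    have : (1 : ℝ) ≤ (b : ℝ) ^ (5 - k) := one_le_pow₀ (by linarith)
    nlinarith
  have a1 := inc_upper h hp (x := 0) (y := um b / (b : ℝ) ^ 5) (by positivity)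
    (r1 _ hm0.le (by linarith))
  have a2 := inc_lower h' hp (x := 0) (y := uq b / (b : ℝ) ^ 5)
    (div_nonneg (by linarith) (by positivity)) (r1 _ (by linarith) (by linarith))
  have e1 : (b : ℝ) ^ 5 * (um b / (b : ℝ) ^ 5) = um b := by field_simp
  have e2 : (b : ℝ) ^ 5 * (uq b / (b : ℝ) ^ 5) = uq b := by field_simp
  rw [e1, mul_zero] at a1
  rw [e2, mul_zero] at a2
  have z1 := V_zero (b := b) h hp
  have z2 := V_zero (b := b) h' hp
  have z3 := V_um h hp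
  have z4 := V_uq h' hp
  have hz : V lam b G 0 = V lam b H 0 := by
    have h1 := hp.lt_one
    have : (V lam b G 0 - V lam b H 0) * (1 - lam) = 0 := by rw [sub_mul, z1, z2, h0, sub_self]
    rcases mul_eq_zero.1 this with h2 | h2
    · linarith
    · linarith
  have g1 := h.lip (um b) 0
  rw [sub_zero, abs_of_pos hm0] at g1
  have g1' := (abs_le.1 g1).2
  have g2 := h'.up 0 (uq b) le_rfl (by linarith) (by linarith)
  have hd : V lam b G (um b) - V lam b G 0 ≤ V lam b H (uq b) - V lam b H 0 := by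
    have h1 := hp.lt_one
    have : (V lam b G (um b) - V lam b G 0) * (1 - lam) ≤
      (V lam b H (uq b) - V lam b H 0) * (1 - lam) := by
      rw [sub_mul, sub_mul, z1, z2, z3, z4]
      linarith
    exact le_of_mul_le_mul_right this (by linarith)
  have hd2 := mul_le_mul_of_nonneg_left hd (pow_nonneg hp.pos.le 5)
  have hd3 : 21 / 20 * (um b / (b : ℝ) ^ 5 - 0) * S b lam 5 ≤
      19 / 20 * (uq b / (b : ℝ) ^ 5 - 0) * S b lam 5 := by
    apply mul_le_mul_of_nonneg_right _ hS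
    rw [sub_zero, sub_zero, ← mul_div_assoc, ← mul_div_assoc]
    apply div_le_div_of_nonneg_right _ (by positivity)
    linarith
  linarith

lemma start (h : Good G) (h' : Good H) (hp : Par b lam) (h0 : G 0 = H 0) :
    St b lam G H 5 0 0 := by
  have hb := hp.bR
  have r : Reg b 5 (((0 : ℤ) : ℝ) / (b : ℝ) ^ 5) ((((0 : ℤ) : ℝ) + 1) / (b : ℝ) ^ 5) := by
    intro k hk
    refine ⟨0, by simp, ?_⟩
    push_cast
    have e : (b : ℝ) ^ k * ((0 + 1) / (b : ℝ) ^ 5) = 1 / (b : ℝ) ^ (5 - k) := by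
      have : (b : ℝ) ^ 5 = (b : ℝ) ^ (5 - k) * (b : ℝ) ^ k := by
        rw [← pow_add]; congr 1; omega
      rw [this]; field_simp
      ring
    rw [e, zero_add, div_le_iff₀ (by positivity)]
    have : (b : ℝ) ^ 1 ≤ (b : ℝ) ^ (5 - k) := pow_le_pow_right₀ (by linarith) (by omega)
    rw [pow_one] at this
    linarith
  refine ⟨r, r, ?_, ?_⟩
  · simpa using start_le h h' hp h0
  · simpa using start_le h' h hp h0.symm

/-- nested address sequences -/
lemma exists_seq (h : Good G) (h' : Good H) (hp : Par b lam) (h0 : G 0 = H 0) :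
    ∃ P Q : ℕ → ℤ, P 0 = 0 ∧ Q 0 = 0 ∧ (∀ m, St b lam G H (5 + m) (P m) (Q m)) ∧
      (∀ m, ∃ d : ℤ, (1 ≤ d ∧ d ≤ (b / 2 : ℕ) - 1) ∧ P (m + 1) = b * P m + d) ∧
      (∀ m, ∃ d : ℤ, (1 ≤ d ∧ d ≤ (b / 2 : ℕ) - 1) ∧ Q (m + 1) = b * Q m + d) := by
  classical
  have hstep : ∀ (m : ℕ) (s : {s : ℤ × ℤ // St b lam G H (5 + m) s.1 s.2}),
      ∃ t : {t : ℤ × ℤ // St b lam G H (5 + (m + 1)) t.1 t.2},
        (∃ d : ℤ, (1 ≤ d ∧ d ≤ (b / 2 : ℕ) - 1) ∧ t.1.1 = b * s.1.1 + d) ∧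
        (∃ d : ℤ, (1 ≤ d ∧ d ≤ (b / 2 : ℕ) - 1) ∧ t.1.2 = b * s.1.2 + d) := by
    intro m s
    obtain ⟨d, e, hd, he, hst⟩ := step h h' hp s.2
    exact ⟨⟨(b * s.1.1 + d, b * s.1.2 + e), hst⟩, ⟨d, hd, rfl⟩, ⟨e, he, rfl⟩⟩
  choose nxt hn1 hn2 using hstep
  let s0 : {s : ℤ × ℤ // St b lam G H (5 + 0) s.1 s.2} := ⟨(0, 0), start h h' hp h0⟩
  let seq : (m : ℕ) → {s : ℤ × ℤ // St b lam G H (5 + m) s.1 s.2} :=
    fun m => Nat.rec s0 (fun k s => nxt k s) m
  refine ⟨fun m => (seq m).1.1, fun m => (seq m).1.2, rfl, rfl, fun m => (seq m).2,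
    fun m => hn1 m (seq m), fun m => hn2 m (seq m)⟩

/-- limit point of an address sequence -/
lemma exists_limit (hp : Par b lam) {P : ℕ → ℤ} (hP0 : P 0 = 0)
    (hP : ∀ m, ∃ d : ℤ, (1 ≤ d ∧ d ≤ (b / 2 : ℕ) - 1) ∧ P (m + 1) = b * P m + d) :
    ∃ x : ℝ, InE b x ∧ ∀ m, ((P m : ℝ) + um b) / (b : ℝ) ^ (5 + m) ≤ x ∧
      x ≤ ((P m : ℝ) + uq b) / (b : ℝ) ^ (5 + m) := by
  have hb := hp.bR
  have hm0 := um_pos hp
  have hu1 := uq_le hp
  have hell := ell_ge hp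
  have hume := um_eq hp
  have huqe := uq_eq hp
  have mono : Monotone (fun m => ((P m : ℝ) + um b) / (b : ℝ) ^ (5 + m)) := by
    refine monotone_nat_of_le_succ fun m => ?_
    obtain ⟨d, ⟨hd1, hd2⟩, hd⟩ := hP m
    have hd1' : (1 : ℝ) ≤ d := by exact_mod_cast hd1
    rw [hd, show 5 + (m + 1) = (5 + m) + 1 by ring, pow_succ,
      div_le_div_iff₀ (by positivity) (by positivity)]
    push_cast
    have hB : (0 : ℝ) < (b : ℝ) ^ (5 + m) := by positivity
    have : ((P m : ℝ) + um b) * b ≤ (b * P m + d + um b) := by nlinarith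
    nlinarith [mul_le_mul_of_nonneg_right this hB.le]
  have anti : Antitone (fun m => ((P m : ℝ) + uq b) / (b : ℝ) ^ (5 + m)) := by
    refine antitone_nat_of_succ_le fun m => ?_
    obtain ⟨d, ⟨hd1, hd2⟩, hd⟩ := hP m
    have hd2' : (d : ℝ) ≤ ((b / 2 : ℕ) : ℝ) - 1 := by exact_mod_cast hd2
    rw [hd, show 5 + (m + 1) = (5 + m) + 1 by ring, pow_succ,
      div_le_div_iff₀ (by positivity) (by positivity)]
    rw [Int.cast_add, Int.cast_mul, Int.cast_natCast]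
    have hB : (0 : ℝ) < (b : ℝ) ^ (5 + m) := by positivity
    have : (b * P m + d + uq b) ≤ ((P m : ℝ) + uq b) * b := by nlinarith
    nlinarith [mul_le_mul_of_nonneg_right this hB.le]
  have hle : (fun m => ((P m : ℝ) + um b) / (b : ℝ) ^ (5 + m)) ≤
      (fun m => ((P m : ℝ) + uq b) / (b : ℝ) ^ (5 + m)) := by
    intro m
    apply div_le_div_of_nonneg_right _ (by positivity)
    linarith
  have hmem := mono.ciSup_mem_iInter_Icc_of_antitone anti hle
  rw [mem_iInter] at hmem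
  refine ⟨_, ⟨?_, ?_⟩, fun m => hmem m⟩
  · have h1 := hmem 0
    rw [hP0] at h1
    have h2 := h1.1
    have h3 := h1.2
    rw [div_le_iff₀ (by positivity)] at h2
    rw [le_div_iff₀ (by positivity)] at h3
    push_cast at h2 h3
    constructor <;> linarith
  · intro k hk
    obtain ⟨m, rfl⟩ := Nat.exists_eq_add_of_le hk
    have h1 := hmem m
    have h2 := h1.1
    have h3 := h1.2
    rw [div_le_iff₀ (by positivity)] at h2
    rw [le_div_iff₀ (by positivity)] at h3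
    exact ⟨P m, by linarith, by linarith⟩

lemma pt_tendsto (hp : Par b lam) {P : ℕ → ℤ} {x : ℝ}
    (hx : ∀ m, ((P m : ℝ) + um b) / (b : ℝ) ^ (5 + m) ≤ x ∧
      x ≤ ((P m : ℝ) + uq b) / (b : ℝ) ^ (5 + m)) (u : ℝ) (hu1 : um b ≤ u) (hu2 : u ≤ uq b) :
    Tendsto (fun m => ((P m : ℝ) + u) / (b : ℝ) ^ (5 + m)) atTop (𝓝 x) := by
  have hb := hp.bR
  have hm0 := um_pos hp
  have hu1' := uq_le hp
  have hlim : Tendsto (fun m : ℕ => (1 / (b : ℝ)) ^ m) atTop (𝓝 0) := by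
    apply tendsto_pow_atTop_nhds_zero_of_lt_one (by positivity)
    rw [div_lt_one (by positivity)]
    linarith
  rw [tendsto_iff_dist_tendsto_zero]
  refine squeeze_zero (fun _ => dist_nonneg) (fun m => ?_) hlim
  rw [Real.dist_eq]
  have h1 := hx m
  have hB : (0 : ℝ) < (b : ℝ) ^ (5 + m) := by positivity
  have a1 : ((P m : ℝ) + um b) / (b : ℝ) ^ (5 + m) ≤ ((P m : ℝ) + u) / (b : ℝ) ^ (5 + m) := by
    apply div_le_div_of_nonneg_right _ hB.le; linarith
  have a2 : ((P m : ℝ) + u) / (b : ℝ) ^ (5 + m) ≤ ((P m : ℝ) + uq b) / (b : ℝ) ^ (5 + m) := by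
    apply div_le_div_of_nonneg_right _ hB.le; linarith
  have a3 : ((P m : ℝ) + uq b) / (b : ℝ) ^ (5 + m) - ((P m : ℝ) + um b) / (b : ℝ) ^ (5 + m) ≤
      (1 / (b : ℝ)) ^ m := by
    rw [← sub_div, one_div, inv_pow, div_le_iff₀ hB, pow_add]
    have : (1 : ℝ) ≤ (b : ℝ) ^ 5 := one_le_pow₀ (by linarith)
    have e : ((b : ℝ) ^ m)⁻¹ * ((b : ℝ) ^ 5 * (b : ℝ) ^ m) = (b : ℝ) ^ 5 := by field_simp
    rw [e]
    linarith
  rw [abs_le]
  constructor <;> linarith [h1.1, h1.2]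

/-- main intersection result -/
lemma exists_common (h : Good G) (h' : Good H) (hp : Par b lam) (h0 : G 0 = H 0) :
    ∃ x y : ℝ, InE b x ∧ InE b y ∧ V lam b G x = V lam b H y := by
  have hm0 := um_pos hp
  have hell := ell_ge hp
  obtain ⟨P, Q, hP0, hQ0, hst, hP, hQ⟩ := exists_seq h h' hp h0
  obtain ⟨x, hx, hx'⟩ := exists_limit hp hP0 hP
  obtain ⟨y, hy, hy'⟩ := exists_limit hp hQ0 hQ
  refine ⟨x, y, hx, hy, le_antisymm ?_ ?_⟩
  · have l1 := ((continuous_V (b := b) h hp.pos.le hp.lt_one).tendsto x).comp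
      (pt_tendsto hp hx' (um b) le_rfl (by linarith))
    have l2 := ((continuous_V (b := b) h' hp.pos.le hp.lt_one).tendsto y).comp
      (pt_tendsto hp hy' (uq b) (by linarith) le_rfl)
    exact le_of_tendsto_of_tendsto' l1 l2 fun m => (hst m).h1
  · have l1 := ((continuous_V (b := b) h hp.pos.le hp.lt_one).tendsto x).comp
      (pt_tendsto hp hx' (uq b) (by linarith) le_rfl)
    have l2 := ((continuous_V (b := b) h' hp.pos.le hp.lt_one).tendsto y).comp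
      (pt_tendsto hp hy' (um b) le_rfl (by linarith))
    exact le_of_tendsto_of_tendsto' l2 l1 fun m => (hst m).h2

/-- main real-variable theorem -/
theorem two_crossings (h : Good G) (hp : Par b lam) :
    ∃ x y : ℝ, 0 < x ∧ x < 1 / 2 ∧ 0 < y ∧ y < 1 / 2 ∧ V lam b G x = V lam b G (-y) ∧
      V lam b G 0 < V lam b G x ∧ V lam b G x < V lam b G (1 / 2) ∧
      (∀ t, 0 ≤ t → t ≤ 1 / 2 → V lam b G t = V lam b G x → t = x) ∧
      (∀ t, 0 ≤ t → t ≤ 1 / 2 → V lam b G (-t) = V lam b G x → t = y) := by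
  obtain ⟨x, y, hx, hy, hxy⟩ := exists_common h h.refl hp (by simp [refl])
  have hx0 := hx.pos hp
  have hy0 := hy.pos hp
  have hsm : ∀ z, InE b z → z < 1 / 2 := by
    intro z hz
    have h1 := hz.small hp (k := 0) (by norm_num)
    simp only [pow_zero, one_mul] at h1
    have hb := hp.bR
    have h2 : 1 / (b : ℝ) ^ (5 - 0) < 1 := by
      rw [div_lt_one (by positivity)]
      exact one_lt_pow₀ (by linarith) (by norm_num)
    linarith
  have hx2 := hsm x hx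
  have hy2 := hsm y hy
  refine ⟨x, y, hx0, hx2, hy0, hy2, ?_, ?_, ?_, ?_, ?_⟩
  · rw [hxy, V_refl]
  · rcases crossing h hp hx le_rfl (by norm_num) hx0.ne with h1 | h1
    · exact absurd h1.1 (by linarith)
    · exact h1.2
  · rcases crossing h hp hx (x := 1 / 2) (by norm_num) le_rfl hx2.ne' with h1 | h1
    · exact h1.2
    · exact absurd h1.1 (by linarith)
  · intro t ht0 ht1 ht
    by_contra hne
    rcases crossing h hp hx ht0 ht1 hne with h1 | h1
    · linarith [h1.2]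
    · linarith [h1.2]
  · intro t ht0 ht1 ht
    by_contra hne
    rw [← V_refl] at ht
    rcases crossing h.refl hp hy ht0 ht1 hne with h1 | h1
    · linarith [h1.2]
    · linarith [h1.2]

end

end Pool.Agent.Work.MP_935c4d_an
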